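import Pool.Agent.Q117.PL.All

/-!
# MP_e8d2ce_nt: clusters of palindromes without small prime factors are rare; isolated palindromes with few prime factors
-/

set_option autoImplicit false

namespace Pool.Agent.Results.MP_e8d2ce_nt.IsolatedPalindromes

open Finset
open Pool.Agent.Q117.LF (Ro)

/-- the base `b` palindromes with `2 L + 1` digits -/
def Pal (b L : ℕ) : Finset ℕ := (range (b ^ (2 * L + 1))).filter (fun n => b ^ (2 * L) ≤ n ∧ (Nat.digits b n).reverse = Nat.digits b n)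

open Classical in
/-- the palindromes with `2 L + 1` digits without prime factors `≤ z` which have another one at distance `≤ D` -/
noncomputable def Clustered (b L : ℕ) (z D : ℝ) : Finset ℕ :=
  (Pal b L).filter (fun n : ℕ => Ro z n ∧ ∃ n' ∈ Pal b L, n' ≠ n ∧ |((n' : ℝ) - n)| ≤ D ∧ Ro z n')

open Classical in
/-- the palindromes with `2 L + 1` digits with at most `R` prime factors, all `> w`, for which all the other palindromes with `2 L + 1` digits at distance `≤ D` have a prime factor `≤ z` -/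
noncomputable def Isolated (b L R : ℕ) (w z D : ℝ) : Finset ℕ :=
  (Pal b L).filter (fun n : ℕ => n.primeFactorsList.length ≤ R ∧ (∀ p : ℕ, p.Prime → p ∣ n → w < p) ∧
    ∀ n' ∈ Pal b L, n' ≠ n → |((n' : ℝ) - n)| ≤ D → ¬ Ro z n')

theorem result : ∀ b T : ℕ, 2 ≤ b → 1 ≤ T → (∃ C : ℝ, 0 < C ∧ ∃ L0 : ℕ, ∀ L : ℕ, L0 ≤ L → ∀ S : ℝ, 0 ≤ S → S ≤ L →
      ((Clustered b L ((b : ℝ) ^ ((L : ℝ) / T)) (S * b ^ L)).card : ℝ) ≤ C * (S + Real.log L) * (b : ℝ) ^ L / (L : ℝ) ^ 2) ∧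
    (13 ≤ T → ∃ c : ℝ, 0 < c ∧ ∃ ν : ℝ, 0 < ν ∧ ∃ L0 : ℕ, ∀ L : ℕ, L0 ≤ L →
      c * (b : ℝ) ^ L / L ≤ ((Isolated b L (if 1000 ≤ b then 3 else if 64 ≤ b then 4 else 5) ((b : ℝ) ^ ((L : ℝ) / 13)) ((b : ℝ) ^ ((L : ℝ) / T)) (ν * L * b ^ L)).card : ℝ)) :=
  Pool.Agent.Q117.PL.paC

end Pool.Agent.Results.MP_e8d2ce_nt.IsolatedPalindromes
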