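import Pool.Agent.Q117.PL.Sr
import Pool.Agent.Q117.PL.Pd

/-!
# MP_e8d2ce_nt: palindromes with prescribed surroundings among the integers
-/

set_option autoImplicit false

namespace Pool.Agent.Results.MP_e8d2ce_nt.PrescribedSurroundings

open Finset
open Pool.Agent.H39R3.PB (fr)
open Pool.Agent.Q117.LF (Ro oF)
open Pool.Agent.Q117.PL

/-- the base `b` palindromes with `2 L + 1` digits and leading digit `l` -/
def Pals (b L l : ℕ) : Finset ℕ := (Ico (l * b ^ (2 * L)) ((l + 1) * b ^ (2 * L))).filter (fun n => (Nat.digits b n).reverse = Nat.digits b n)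

/-- all `l + e` are prime to `b`, and for every prime `p` not dividing `b` the numbers `e` miss a class modulo `p` -/
def Admissible (b l : ℕ) (E : Finset ℤ) : Prop :=
  (∀ e ∈ E, ∀ p : ℕ, p.Prime → p ∣ b → ¬ (p : ℤ) ∣ l + e) ∧ ∀ p : ℕ, p.Prime → ¬ p ∣ b → ∃ s : ℤ, ∀ e ∈ E, ¬ (p : ℤ) ∣ s + e

/-- the number of the classes modulo `p` met by `E` -/
noncomputable def omega (E : Finset ℤ) (p : ℕ) : ℕ := (E.image (fun e : ℤ => e % (p : ℤ))).card

/-- the product of `1 - omega / p` over the primes `p ≤ y` that do not divide `b` -/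
noncomputable def dens (b y : ℕ) (E : Finset ℤ) : ℝ := ∏ p ∈ (Icc 1 y).filter (fun p : ℕ => p.Prime ∧ ¬ p ∣ b), (1 - (omega E p : ℝ) / p)

open Classical in
/-- the palindromes `n` for which all the `n + e`, `e ∈ E`, have no prime factor `≤ z`, and all the other integers at distance `≤ D` from one of them have one -/
noncomputable def Surrounded (b L l : ℕ) (E : Finset ℤ) (z D : ℝ) : Finset ℕ :=
  (Pals b L l).filter (fun n : ℕ => (∀ e ∈ E, Ro z (n + e)) ∧ ∀ e ∈ E, ∀ s : ℤ, |(s : ℝ)| ≤ D → e + s ∉ E → ¬ Ro z (n + e + s))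

theorem dens_le (b y : ℕ) (E : Finset ℤ) : dens b y E ≤ Pool.Agent.Q117.AP.VQ y (2 * b) E := by
  classical
  unfold dens Pool.Agent.Q117.AP.VQ
  have hsub : (Icc 1 y).filter (fun p : ℕ => p.Prime ∧ ¬ p ∣ 2 * b) ⊆ (Icc 1 y).filter (fun p : ℕ => p.Prime ∧ ¬ p ∣ b) := by
    intro p hp
    rw [mem_filter] at hp ⊢
    exact ⟨hp.1, hp.2.1, fun h => hp.2.2 (h.trans (Dvd.intro_left 2 rfl))⟩
  rw [← prod_sdiff hsub]
  have h1 : ∀ p ∈ (Icc 1 y).filter (fun p : ℕ => p.Prime ∧ ¬ p ∣ b), 0 ≤ (1 - (omega E p : ℝ) / p) ∧ (1 - (omega E p : ℝ) / p) ≤ 1 := by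
    intro p hp
    have hp' := (mem_filter.1 hp).2.1
    exact Pool.Agent.Q117.AP.PATa.fac_bd E hp'
  have h2 : ∏ p ∈ (Icc 1 y).filter (fun p : ℕ => p.Prime ∧ ¬ p ∣ b) \ (Icc 1 y).filter (fun p : ℕ => p.Prime ∧ ¬ p ∣ 2 * b), (1 - (omega E p : ℝ) / p) ≤ 1 :=
    prod_le_one (fun p hp => (h1 p (mem_sdiff.1 hp).1).1) (fun p hp => (h1 p (mem_sdiff.1 hp).1).2)
  have h3 : 0 ≤ ∏ p ∈ (Icc 1 y).filter (fun p : ℕ => p.Prime ∧ ¬ p ∣ 2 * b), (1 - (omega E p : ℝ) / p) :=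
    prod_nonneg fun p hp => (h1 p (hsub hp)).1
  calc _ ≤ 1 * ∏ p ∈ (Icc 1 y).filter (fun p : ℕ => p.Prime ∧ ¬ p ∣ 2 * b), (1 - (omega E p : ℝ) / p) := mul_le_mul_of_nonneg_right h2 h3
    _ = _ := one_mul _

/-- the middle digit -/
theorem mid_ex {b l : ℕ} (hb : 2 ≤ b) {E : Finset ℤ} (h : Admissible b l E) : ∃ m < b, Even b ∨ ∀ e ∈ E, ¬ (2 : ℤ) ∣ m + e := by
  rcases Nat.even_or_odd b with hev | hod
  · exact ⟨0, by omega, Or.inl hev⟩
  · obtain ⟨s, hs⟩ := h.2 2 Nat.prime_two (fun hd => (Nat.not_even_iff_odd.2 hod) (even_iff_two_dvd.2 hd))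
    have hb3 : 3 ≤ b := by
      rcases hod with ⟨k, hk⟩
      omega
    refine ⟨(s % 2).toNat, by omega, Or.inr fun e he => ?_⟩
    have := hs e he
    push_cast at this
    omega

theorem mid_one (b L m : ℕ) (hm : m < b) : Mid b L 1 m = m * b ^ L := by
  unfold Mid
  rw [sum_range_one, pow_zero, Nat.div_one, Nat.mod_eq_of_lt hm]
  simp [fr]

theorem pv_eq (b L l o m : ℕ) (hm : m < b) : ((Pv b L 1 l o m : ℕ) : ℤ) = OutP b L 1 o + ((l : ℤ) * ((b : ℤ) ^ (2 * L) + 1) + m * (b : ℤ) ^ L) := by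
  unfold Pv
  rw [mid_one b L m hm]
  push_cast
  ring

theorem pv_mem {b L l o m : ℕ} (hb : 2 ≤ b) (hL : 1 ≤ L) (hl : 1 ≤ l) (hlb : l < b) (ho : o < b ^ (L - 1)) (hm : m < b) :
    Pv b L 1 l o m ∈ Pals b L l ∧ Pv b L 1 l o m / b ^ L = l * b ^ L + o * b ^ 1 + m := by
  have hm' : m < b ^ 1 := by rwa [pow_one]
  obtain ⟨h1, h2, h3, h4⟩ := pd b L hb hL
  have e := h4 1 l o m hL hlb ho hm'
  have hlow : o * b ^ 1 + m < b ^ L := by
    have h5 : (o + 1) * b ^ 1 ≤ b ^ (L - 1) * b ^ 1 := Nat.mul_le_mul_right _ ho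
    rw [← pow_add, Nat.sub_add_cancel hL] at h5
    have h6 : (o + 1) * b ^ 1 = o * b ^ 1 + b ^ 1 := by ring
    omega
  have hx : l * b ^ L + o * b ^ 1 + m < b ^ (L + 1) := by
    have h5 : (l + 1) * b ^ L ≤ b * b ^ L := Nat.mul_le_mul_right _ hlb
    have h6 : (l + 1) * b ^ L = l * b ^ L + b ^ L := by ring
    rw [pow_succ' b L]
    omega
  have hx1 : b ^ L ≤ l * b ^ L + o * b ^ 1 + m := by
    have h5 : 1 * b ^ L ≤ l * b ^ L := Nat.mul_le_mul_right _ hl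
    omega
  have hmem : Pv b L 1 l o m ∈ Pool.Agent.Q117.PL.Pal b L := (h1 _).2 ⟨_, hx1, hx, e.symm⟩
  have hdiv : Pv b L 1 l o m / b ^ L = l * b ^ L + o * b ^ 1 + m := by
    rw [← e]
    exact PDa.Pl_div hb hx
  have hp : 0 < b ^ L := pow_pos (by omega) L
  refine ⟨?_, hdiv⟩
  rw [Pool.Agent.Q117.PL.Pal, mem_filter] at hmem
  rw [Pals, mem_filter, mem_Ico]
  refine ⟨⟨?_, ?_⟩, hmem.2.2⟩
  · have h5 : (l * b ^ L + o * b ^ 1 + m) * b ^ L ≤ Pv b L 1 l o m := by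
      rw [← hdiv]
      exact Nat.div_mul_le_self _ _
    have h6 : l * b ^ (2 * L) ≤ (l * b ^ L + o * b ^ 1 + m) * b ^ L := by
      rw [two_mul, pow_add, ← mul_assoc]
      exact Nat.mul_le_mul_right _ (by omega)
    exact h6.trans h5
  · have h5 : Pv b L 1 l o m < (l * b ^ L + o * b ^ 1 + m + 1) * b ^ L := by
      rw [← hdiv]
      exact (Nat.div_lt_iff_lt_mul hp).1 (Nat.lt_succ_self _)
    have h6 : (l * b ^ L + o * b ^ 1 + m + 1) * b ^ L ≤ (l + 1) * b ^ (2 * L) := by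
      rw [two_mul, pow_add, ← mul_assoc]
      refine Nat.mul_le_mul_right _ ?_
      have : (l + 1) * b ^ L = l * b ^ L + b ^ L := by ring
      omega
    exact h5.trans_le h6

theorem result : ∀ b : ℕ, 2 ≤ b → ∀ r : ℕ, ∃ t : ℕ, 1 ≤ t ∧ ∀ T : ℕ, t ≤ T → ∃ c : ℝ, 0 < c ∧ ∃ ν : ℝ, 0 < ν ∧ ∃ L0 : ℕ, ∀ L : ℕ, L0 ≤ L →
    ∀ l : ℕ, 1 ≤ l → l < b → ∀ E : Finset ℤ, E.Nonempty → E.card ≤ r → (∀ e ∈ E, |(e : ℝ)| ≤ (b : ℝ) ^ (2 * L)) → Admissible b l E →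
      c * ((b : ℝ) ^ L * dens b (b ^ L) E) ≤ ((Surrounded b L l E ((b : ℝ) ^ ((L : ℝ) / T)) (ν * L)).card : ℝ) := by
  classical
  intro b hb r
  obtain ⟨t, ht, h⟩ := srC b hb r
  refine ⟨t, ht, fun T hT => ?_⟩
  obtain ⟨c, hc, ν, hν, L0, h⟩ := h T hT
  have hb0 : (0 : ℝ) < b := by exact_mod_cast (show 0 < b by omega)
  refine ⟨c / b, by positivity, ν, hν, max L0 3, fun L hL l hl hlb E hEne hEc hEb hA => ?_⟩
  have hL0 : L0 ≤ L := (le_max_left _ _).trans hL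
  have hL3 : 3 ≤ L := (le_max_right _ _).trans hL
  obtain ⟨m, hm, hm2⟩ := mid_ex hb hA
  set a : ℤ := (l : ℤ) * ((b : ℤ) ^ (2 * L) + 1) + m * (b : ℤ) ^ L with ha
  set V : Finset ℤ := E.image (fun e => e + a) with hV
  have hVA : Pool.Agent.Q117.AP.AdQ (2 * b) V := by
    intro p hp hpb
    obtain ⟨s, hs⟩ := hA.2 p hp (fun h => hpb (h.trans (Dvd.intro_left 2 rfl)))
    refine ⟨s - a, fun e he => ?_⟩
    obtain ⟨f, hf, rfl⟩ := mem_image.1 he
    have := hs f hf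
    rwa [show s - a + (f + a) = s + f by ring]
  have hVu : Pool.Agent.Q117.MG.Cu (2 * b) V := by
    intro p hp hpb v hv hd
    obtain ⟨e, he, rfl⟩ := mem_image.1 hv
    by_cases hpb' : p ∣ b
    · have h1 : (p : ℤ) ∣ (b : ℤ) ^ (2 * L) := (Int.natCast_dvd_natCast.2 hpb').trans (dvd_pow_self _ (by omega))
      have h2 : (p : ℤ) ∣ (b : ℤ) ^ L := (Int.natCast_dvd_natCast.2 hpb').trans (dvd_pow_self _ (by omega))
      have h3 : e + a = (l * (b : ℤ) ^ (2 * L) + m * (b : ℤ) ^ L) + (l + e) := by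
        rw [ha]
        ring
      rw [h3] at hd
      exact hA.1 e he p hp hpb' ((dvd_add_right (dvd_add (Dvd.dvd.mul_left h1 _) (Dvd.dvd.mul_left h2 _))).1 hd)
    · have h2p : p = 2 := by
        rcases hp.dvd_mul.1 hpb with h1 | h1
        · exact (Nat.prime_dvd_prime_iff_eq hp Nat.prime_two).1 h1
        · exact absurd h1 hpb'
      subst h2p
      have hodd : Odd b := Nat.not_even_iff_odd.1 fun he => hpb' he.two_dvd
      have hoddz : Odd (b : ℤ) := by exact_mod_cast hodd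
      have h1 : (2 : ℤ) ∣ (b : ℤ) ^ (2 * L) + 1 := (Odd.add_odd hoddz.pow odd_one).two_dvd
      have h2 : (2 : ℤ) ∣ (b : ℤ) ^ L - 1 := (Odd.sub_odd hoddz.pow odd_one).two_dvd
      have h3 : e + a = (l * ((b : ℤ) ^ (2 * L) + 1) + m * ((b : ℤ) ^ L - 1)) + (m + e) := by
        rw [ha]
        ring
      rw [h3] at hd
      push_cast at hd
      have h4 := (dvd_add_right (dvd_add (Dvd.dvd.mul_left h1 _) (Dvd.dvd.mul_left h2 _))).1 hd
      rcases hm2 with h5 | h5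
      · exact (Nat.not_even_iff_odd.2 hodd) h5
      · exact h5 e he h4
  have hVb : ∀ v ∈ V, |(v : ℝ)| ≤ (b : ℝ) ^ (3 * L) / 2 := by
    intro v hv
    obtain ⟨e, he, rfl⟩ := mem_image.1 hv
    have h1 := hEb e he
    have hbr : (2 : ℝ) ≤ b := by exact_mod_cast hb
    have hl1 : (l : ℝ) ≤ b - 1 := by
      have : (l : ℝ) + 1 ≤ b := by exact_mod_cast hlb
      linarith
    have hm1 : (m : ℝ) ≤ b - 1 := by
      have : (m : ℝ) + 1 ≤ b := by exact_mod_cast hm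
      linarith
    have ha1 : |(a : ℝ)| ≤ (b - 1) * ((b : ℝ) ^ (2 * L) + 1) + (b - 1) * (b : ℝ) ^ L := by
      have h2 : (a : ℝ) = (l : ℝ) * ((b : ℝ) ^ (2 * L) + 1) + m * (b : ℝ) ^ L := by
        rw [ha]
        push_cast
        ring
      rw [h2, abs_of_nonneg (by positivity)]
      gcongr
    have h3 : |((e + a : ℤ) : ℝ)| ≤ |(e : ℝ)| + |(a : ℝ)| := by
      push_cast
      exact abs_add_le _ _
    refine h3.trans ?_
    have h4 : (b : ℝ) ^ L ≤ (b : ℝ) ^ (2 * L) := pow_le_pow_right₀ (by linarith) (by omega)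
    have h5 : (1 : ℝ) ≤ (b : ℝ) ^ (2 * L) := one_le_pow₀ (by linarith)
    have h6 : (b : ℝ) ^ (2 * L) * (b : ℝ) ^ 3 ≤ (b : ℝ) ^ (3 * L) := by
      rw [← pow_add]
      exact pow_le_pow_right₀ (by linarith) (by omega)
    have h7 : (0 : ℝ) < (b : ℝ) ^ (2 * L) := by positivity
    have h8 : (b : ℝ) ^ (2 * L) + ((b - 1) * ((b : ℝ) ^ (2 * L) + 1) + (b - 1) * (b : ℝ) ^ L) ≤ (b : ℝ) ^ (2 * L) * (3 * b - 2) := by
      nlinarith
    have h9 : 3 * (b : ℝ) - 2 ≤ (b : ℝ) ^ 3 / 2 := by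
      nlinarith [mul_nonneg (sub_nonneg.2 hbr) (sub_nonneg.2 hbr), mul_nonneg (mul_nonneg (sub_nonneg.2 hbr) (sub_nonneg.2 hbr)) (sub_nonneg.2 hbr)]
    have h10 : (b : ℝ) ^ (2 * L) * (3 * b - 2) ≤ (b : ℝ) ^ (2 * L) * ((b : ℝ) ^ 3 / 2) := mul_le_mul_of_nonneg_left h9 h7.le
    linarith
  have hmain := h L hL0 1 le_rfl (by omega) V (hEne.image _) (card_image_le.trans hEc) hVb hVu hVA
  have hVQ : Pool.Agent.Q117.AP.VQ (b ^ L) (2 * b) V = Pool.Agent.Q117.AP.VQ (b ^ L) (2 * b) E := PTa.VQ_shift _ _ _ _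
  rw [hVQ] at hmain
  have hd := dens_le b (b ^ L) E
  have himg : (PtsS b L 1 V ((b : ℝ) ^ ((L : ℝ) / T)) (ν * L)).image (fun o => Pv b L 1 l o m) ⊆ Surrounded b L l E ((b : ℝ) ^ ((L : ℝ) / T)) (ν * L) := by
    intro n hn
    obtain ⟨o, ho, rfl⟩ := mem_image.1 hn
    rw [PtsS, mem_filter, mem_range] at ho
    obtain ⟨ho1, ho2, ho3⟩ := ho
    rw [Surrounded, mem_filter]
    refine ⟨(pv_mem hb (by omega) hl hlb ho1 hm).1, fun e he => ?_, fun e he s hs hes => ?_⟩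
    · rw [pv_eq b L l o m hm, add_assoc, add_comm _ e]
      exact ho2 _ (mem_image_of_mem _ he)
    · have h1 := ho3 (e + a) (mem_image_of_mem _ he) s hs (by
        intro h2
        obtain ⟨f, hf, h3⟩ := mem_image.1 h2
        have h4 : f = e + s := by linarith
        exact hes (h4 ▸ hf))
      rw [pv_eq b L l o m hm]
      convert h1 using 2
      rw [ha]
      ring
  have hinj : Set.InjOn (fun o => Pv b L 1 l o m) (PtsS b L 1 V ((b : ℝ) ^ ((L : ℝ) / T)) (ν * L) : Set ℕ) := by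
    intro o ho o' ho' heq
    rw [mem_coe, PtsS, mem_filter, mem_range] at ho ho'
    have h1 := (pv_mem hb (by omega) hl hlb ho.1 hm).2
    have h2 := (pv_mem hb (by omega) hl hlb ho'.1 hm).2
    have h3 : Pv b L 1 l o m = Pv b L 1 l o' m := heq
    rw [h3, h2] at h1
    have h4 : o' * b ^ 1 = o * b ^ 1 := by omega
    exact (Nat.eq_of_mul_eq_mul_right (by rw [pow_one]; omega) h4).symm
  have hcard : ((PtsS b L 1 V ((b : ℝ) ^ ((L : ℝ) / T)) (ν * L)).card : ℝ) ≤ ((Surrounded b L l E ((b : ℝ) ^ ((L : ℝ) / T)) (ν * L)).card : ℝ) := by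
    rw [← card_image_of_injOn hinj]
    exact_mod_cast card_le_card himg
  refine le_trans ?_ (hmain.trans hcard)
  have hpow : (b : ℝ) ^ L = (b : ℝ) ^ (L - 1) * b := by
    rw [← pow_succ, Nat.sub_add_cancel (by omega)]
  rw [hpow]
  calc c / b * ((b : ℝ) ^ (L - 1) * b * dens b (b ^ L) E) = c * ((b : ℝ) ^ (L - 1) * dens b (b ^ L) E) := by
        field_simp
    _ ≤ c * ((b : ℝ) ^ (L - 1) * Pool.Agent.Q117.AP.VQ (b ^ L) (2 * b) E) := by gcongr

end Pool.Agent.Results.MP_e8d2ce_nt.PrescribedSurroundings
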