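import Pool.Agent.Q253.Pal.Uni

/-!
# Palindromes in all bases: the expected number of primes, or prime factors from one very thin set

There is ONE set `Q` of primes with at most `(log log x)^3` elements up to `x` such that for every base `b ≥ 2`, every `η > 0` and all large `N`
the base-`b` palindromes with `2 N + 1` digits contain the expected order `b ^ N / N` of primes, or of products of `2, ..., k` primes all
`> b ^ ((κ - η) N)`, or the primes `q ∈ [b ^ (N/13), b ^ (κ N)]` which occur as smallest prime factor of the expected order of palindromes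
with at most `k` prime factors have harmonic measure at least `ρ`, and one of them is in `Q`.

Libraries (starting files): level of distribution and weighted sieve for palindromes `W139.PX`, `W89.Sv`, `W89.PW`; Mertens `W378.DC.MP`.
-/

set_option autoImplicit false

namespace Pool.Agent.Results.MP_e8d2ce_nt.PrimesOrThinFactors

open Finset Filter
open Pool.Agent.Q253.Pal (Tm RichS kap kf uni_data pal_seq)
open Pool.Agent.Q253.Cov (union_thin)
open Pool.Agent.W89.PW (pv PlP)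
open Pool.Agent.W139.PX (pv_inj_unif)

open Classical in
/-- the number of the base-`b` palindromes with `2 N + 1` digits and the property `P` -/
noncomputable def count (b N : ℕ) (P : ℕ → Prop) : ℕ :=
  ((range (b ^ (2 * N + 1))).filter (fun n => b ^ (2 * N) ≤ n ∧ (Nat.digits b n).reverse = Nat.digits b n ∧ P n)).card

/-- `N` is `q` times a number `n ≥ 2` with at most `s` prime factors (with multiplicity), all `≥ q` -/
def Times (q s N : ℕ) : Prop := ∃ n : ℕ, 2 ≤ n ∧ N = q * n ∧ n.primeFactorsList.length ≤ s ∧ ∀ p : ℕ, p.Prime → p ∣ n → q ≤ p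

open Classical in
/-- from digit vectors to palindromes -/
lemma to_count {b r L : ℕ} (hb : 2 ≤ b) (κ : ℝ) (P R : ℕ → Prop) (h : ∀ n, PlP b r κ L n → P n → R n) :
    (((univ : Finset (Fin L → Fin b × Fin 1)).filter (fun m => PlP b r κ L (pv b b 1 L m) ∧ P (pv b b 1 L m))).card : ℝ) ≤
      count b (L + 1) R := by
  apply Nat.cast_le.2
  unfold count
  apply card_le_card_of_injOn (pv b b 1 L)
  · intro m hm
    rw [mem_coe, mem_filter] at hm
    obtain ⟨-, ⟨h1, h2, h3, h4, h5⟩, h6⟩ := hm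
    rw [mem_coe, mem_filter, mem_range]
    exact ⟨by rwa [show 2 * (L + 1) + 1 = 2 * L + 3 by ring], by rwa [show 2 * (L + 1) = 2 * L + 2 by ring], h3, h _ ⟨h1, h2, h3, h4, h5⟩ h6⟩
  · exact (pv_inj_unif hb).injOn

/-- the scaling of the expected number -/
lemma scale_le {b L : ℕ} (hb : 2 ≤ b) (hL : 1 ≤ L) {δ : ℝ} (hδ : 0 < δ) :
    δ / b * (b : ℝ) ^ (L + 1) / ((L + 1 : ℕ) : ℝ) ≤ δ * ((b : ℝ) * (1 : ℕ)) ^ L / L := by
  have hb0 : (0 : ℝ) < b := by exact_mod_cast (by omega : 0 < b)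
  have hL0 : (0 : ℝ) < L := by exact_mod_cast hL
  rw [Nat.cast_one, mul_one, show δ / b * (b : ℝ) ^ (L + 1) = δ * (b : ℝ) ^ L by rw [pow_succ]; field_simp]
  apply div_le_div_of_nonneg_left (by positivity) hL0
  push_cast
  linarith

/-- **Primes, large prime factors, or one very thin set.** There is a set `Q` of primes with at most `(log log x) ^ 3` elements up to `x`
(`x ≥ 16`) with the following property. Let `b ≥ 2` and `(k, κ) = (5, 0.49)` for `b < 64`, `(4, 0.6)` for `64 ≤ b < 1000`,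
`(3, 0.727)` for `b ≥ 1000`. For every `η > 0` there are `δ, ρ > 0` such that for all large `N`: (1) at least `δ b^N / N` of the base-`b`
palindromes with `2 N + 1` digits are primes, or (2) at least `δ b^N / N` of them have `2, ..., k` prime factors (with multiplicity), all
`> b^((κ - η) N)`, or (3) there is a finite set `T` of primes `q`, `b^(N/13) ≤ q ≤ b^(κ N)`, with `∑ 1/q ≥ ρ`, such that for each `q ∈ T`
at least `δ b^N / (N q)` of them are `q` times a number with `1, ..., k - 1` prime factors, all `≥ q`; and `T` contains an element of `Q`. -/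
theorem result : ∃ Q : Set ℕ, (∀ q ∈ Q, q.Prime) ∧
    (∀ x : ℕ, 16 ≤ x → {q ∈ Q | q ≤ x}.Finite ∧ ({q ∈ Q | q ≤ x}.ncard : ℝ) ≤ Real.log (Real.log x) ^ 3) ∧
    ∀ (b k : ℕ) (κ : ℝ), 2 ≤ b → (b < 64 ∧ k = 5 ∧ κ = 49 / 100 ∨ 64 ≤ b ∧ b < 1000 ∧ k = 4 ∧ κ = 6 / 10 ∨
      1000 ≤ b ∧ k = 3 ∧ κ = 727 / 1000) → ∀ η : ℝ, 0 < η → ∃ δ ρ : ℝ, 0 < δ ∧ 0 < ρ ∧ ∀ᶠ N : ℕ in atTop,
      δ * (b : ℝ) ^ N / N ≤ count b N (fun n => n.Prime) ∨
      δ * (b : ℝ) ^ N / N ≤ count b N (fun n => 2 ≤ n.primeFactorsList.length ∧ n.primeFactorsList.length ≤ k ∧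
        ∀ p : ℕ, p.Prime → p ∣ n → (b : ℝ) ^ ((κ - η) * N) < p) ∨
      ∃ T : Finset ℕ, (∀ q ∈ T, q.Prime ∧ (b : ℝ) ^ ((N : ℝ) / 13) ≤ q ∧ (q : ℝ) ≤ (b : ℝ) ^ (κ * N) ∧
          δ * (b : ℝ) ^ N / (N * q) ≤ count b N (Times q (k - 1))) ∧
        ρ ≤ ∑ q ∈ T, (1 : ℝ) / q ∧ ∃ q ∈ T, q ∈ Q := by
  classical
  -- the families
  have hfam : ∀ n : ℕ, ∃ (δ ρ C : ℝ) (Q : Set ℕ), 0 < δ ∧ 0 < ρ ∧ 0 < C ∧ (∀ q ∈ Q, q.Prime) ∧
      (∀ x : ℕ, 16 ≤ x → {q ∈ Q | q ≤ x}.Finite ∧ ({q ∈ Q | q ≤ x}.ncard : ℝ) ≤ C * Real.log (Real.log x) ^ 2) ∧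
      ∀ b η κ r, b = n.unpair.1 + 2 → η = 1 / ((n.unpair.2 : ℝ) + 1) → κ = kap b → r = kf b → ∀ᶠ L : ℕ in atTop,
        (δ * ((b : ℝ) * (1 : ℕ)) ^ L / L ≤ (((univ : Finset (Fin L → Fin b × Fin 1)).filter (fun m =>
            PlP b r κ L (pv b b 1 L m) ∧ (pv b b 1 L m).Prime)).card : ℝ) ∨
          δ * ((b : ℝ) * (1 : ℕ)) ^ L / L ≤ (((univ : Finset (Fin L → Fin b × Fin 1)).filter (fun m =>
            PlP b r κ L (pv b b 1 L m) ∧ ¬ (pv b b 1 L m).Prime ∧
            ∀ p : ℕ, p.Prime → p ∣ pv b b 1 L m → (b : ℝ) ^ ((κ - η) * L) < p)).card : ℝ)) ∨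
        (ρ ≤ ∑ q ∈ RichS b r L univ (pv b b 1 L) (fun m => PlP b r κ L (pv b b 1 L m)) (((b : ℝ) * (1 : ℕ)) ^ L) δ (κ / 6) (κ - η), (1 : ℝ) / q ∧
          ∃ q ∈ RichS b r L univ (pv b b 1 L) (fun m => PlP b r κ L (pv b b 1 L m)) (((b : ℝ) * (1 : ℕ)) ^ L) δ (κ / 6) (κ - η), q ∈ Q) := by
    intro n
    have hb : 2 ≤ n.unpair.1 + 2 := by omega
    obtain ⟨k1, k2, hBV, c, hc, hG⟩ := uni_data hb
    obtain ⟨δ, hδ, ρ, hρ, C, hC, Q, hQ, hQc, h⟩ := pal_seq hb (by omega : 1 ≤ n.unpair.1 + 2) le_rfl (by linarith) k2 hBV hc hG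
      (1 / ((n.unpair.2 : ℝ) + 1)) (by positivity)
    refine ⟨δ, ρ, C, Q, hδ, hρ, hC, hQ, hQc, ?_⟩
    rintro b η κ r rfl rfl rfl rfl
    exact h
  choose δ ρ C Q hδ hρ hC hQ hQc hL using hfam
  obtain ⟨y, hy⟩ := union_thin Q C hC hQc
  refine ⟨{q | ∃ n, q ∈ Q n ∧ y n ≤ q}, ?_, hy, ?_⟩
  · rintro q ⟨n, h1, -⟩
    exact hQ n q h1
  intro b k κ hb hk η hη
  have hbr : (2 : ℝ) ≤ b := by exact_mod_cast hb
  have hb1 : (1 : ℝ) ≤ b := by linarith
  have hb0 : (0 : ℝ) < b := by linarith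
  have hkk : κ = kap b ∧ k = kf b := by
    unfold kap kf
    rcases hk with ⟨h1, rfl, rfl⟩ | ⟨h1, h2, rfl, rfl⟩ | ⟨h1, rfl, rfl⟩
    · rw [if_neg (by omega), if_neg (by omega), if_neg (by omega), if_neg (by omega)]
      exact ⟨rfl, rfl⟩
    · rw [if_neg (by omega), if_pos h1, if_neg (by omega), if_pos h1]
      exact ⟨rfl, rfl⟩
    · rw [if_pos h1, if_pos h1]
      exact ⟨rfl, rfl⟩
  obtain ⟨hκ, hkf⟩ := hkk
  obtain ⟨κ1, κ2, -⟩ := uni_data hb
  rw [← hκ] at κ1 κ2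
  clear hk
  obtain ⟨j, hj⟩ := exists_nat_one_div_lt (show (0 : ℝ) < η / 2 by positivity)
  obtain ⟨n, hn⟩ : ∃ n, n = Nat.pair (b - 2) j := ⟨_, rfl⟩
  have hn1 : n.unpair.1 = b - 2 := by rw [hn, Nat.unpair_pair]
  have hn2 : n.unpair.2 = j := by rw [hn, Nat.unpair_pair]
  have hev := hL n b (1 / ((n.unpair.2 : ℝ) + 1)) κ k (by omega) rfl hκ hkf
  rw [hn2] at hev
  have hj0 : (0 : ℝ) < 1 / ((j : ℝ) + 1) := by positivity
  have ev1 : ∀ᶠ L : ℕ in atTop, (y n : ℝ) ≤ (b : ℝ) ^ (κ / 6 * (L : ℝ)) :=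
    ((tendsto_rpow_atTop_of_base_gt_one b (by linarith)).comp
      ((tendsto_natCast_atTop_atTop (R := ℝ)).const_mul_atTop (by positivity))).eventually_ge_atTop _
  have ev2 : ∀ᶠ L : ℕ in atTop, 2 / η + 36 ≤ (L : ℝ) := tendsto_natCast_atTop_atTop.eventually_ge_atTop _
  refine ⟨δ n / b, ρ n, by have := hδ n; positivity, hρ n, ?_⟩
  have hmain : ∀ᶠ L : ℕ in atTop,
      δ n / b * (b : ℝ) ^ (L + 1) / ((L + 1 : ℕ) : ℝ) ≤ count b (L + 1) (fun n => n.Prime) ∨
      δ n / b * (b : ℝ) ^ (L + 1) / ((L + 1 : ℕ) : ℝ) ≤ count b (L + 1) (fun n => 2 ≤ n.primeFactorsList.length ∧ n.primeFactorsList.length ≤ k ∧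
        ∀ p : ℕ, p.Prime → p ∣ n → (b : ℝ) ^ ((κ - η) * ((L + 1 : ℕ) : ℝ)) < p) ∨
      ∃ T : Finset ℕ, (∀ q ∈ T, q.Prime ∧ (b : ℝ) ^ (((L + 1 : ℕ) : ℝ) / 13) ≤ q ∧ (q : ℝ) ≤ (b : ℝ) ^ (κ * ((L + 1 : ℕ) : ℝ)) ∧
          δ n / b * (b : ℝ) ^ (L + 1) / (((L + 1 : ℕ) : ℝ) * q) ≤ count b (L + 1) (Times q (k - 1))) ∧
        ρ n ≤ ∑ q ∈ T, (1 : ℝ) / q ∧ ∃ q ∈ T, q ∈ {q | ∃ n, q ∈ Q n ∧ y n ≤ q} := by
    filter_upwards [hev, ev1, ev2, eventually_ge_atTop 1] with L h1 h2 h3 h4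
    have hL0 : (0 : ℝ) < L := by exact_mod_cast h4
    have hη2 : 0 < 2 / η := by positivity
    have hsc := scale_le hb h4 (hδ n)
    rcases h1 with (h1 | h1) | ⟨h1, q₀, hq₀, hq₀Q⟩
    · left
      have h5 := to_count (L := L) (r := k) hb κ (fun n => n.Prime) (fun n => n.Prime) (fun n _ h => h)
      refine hsc.trans (h1.trans (le_trans (le_of_eq ?_) h5))
      congr!
    · right; left
      have h5 := to_count (L := L) (r := k) hb κ (fun n => ¬ n.Prime ∧ ∀ p : ℕ, p.Prime → p ∣ n → (b : ℝ) ^ ((κ - 1 / ((j : ℝ) + 1)) * (L : ℝ)) < p)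
        (fun n => 2 ≤ n.primeFactorsList.length ∧ n.primeFactorsList.length ≤ k ∧
        ∀ p : ℕ, p.Prime → p ∣ n → (b : ℝ) ^ ((κ - η) * ((L + 1 : ℕ) : ℝ)) < p) ?_
      · refine hsc.trans (h1.trans (le_trans (le_of_eq ?_) h5))
        congr!
      rintro N ⟨p1, p2, p3, p4, p5⟩ ⟨p6, p7⟩
      have hN2 : 2 ≤ N := by
        refine le_trans ?_ p1
        calc 2 ≤ b := hb
          _ = b ^ 1 := (pow_one b).symm
          _ ≤ _ := Nat.pow_le_pow_right (by omega) (by omega)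
      refine ⟨?_, p4, ?_⟩
      · by_contra hcon
        push Not at hcon
        rcases hl : N.primeFactorsList with _ | ⟨x, _ | ⟨y, l⟩⟩
        · have := (Nat.primeFactorsList_eq_nil N).1 hl
          omega
        · have h3 := Nat.prod_primeFactorsList (show N ≠ 0 by omega)
          rw [hl, List.prod_singleton] at h3
          apply p6
          rw [← h3]
          exact Nat.prime_of_mem_primeFactorsList (n := N) (by rw [hl]; simp)
        · rw [hl] at hcon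
          simp at hcon
      · intro p hp hd
        refine lt_of_le_of_lt ?_ (p7 p hp hd)
        apply Real.rpow_le_rpow_of_exponent_le hb1
        push_cast
        have h5 : 1 ≤ η / 2 * L := by
          have : η / 2 * (2 / η) ≤ η / 2 * L := mul_le_mul_of_nonneg_left (by linarith) (by positivity)
          have h6 : η / 2 * (2 / η) = 1 := by field_simp
          linarith
        have h6 : 1 / ((j : ℝ) + 1) * L ≤ η / 2 * L := mul_le_mul_of_nonneg_right hj.le hL0.le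
        nlinarith
    · right; right
      refine ⟨_, ?_, h1, q₀, hq₀, n, hq₀Q, ?_⟩
      · intro q hq
        unfold RichS at hq
        rw [mem_filter] at hq
        obtain ⟨-, q1, q2, q3, q4⟩ := hq
        have hq0 : (0 : ℝ) < q := by exact_mod_cast q1.pos
        refine ⟨q1, ?_, ?_, ?_⟩
        · refine le_trans (Real.rpow_le_rpow_of_exponent_le hb1 ?_) q2
          push_cast
          nlinarith
        · refine q3.trans (Real.rpow_le_rpow_of_exponent_le hb1 ?_)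
          push_cast
          nlinarith
        · have h5 := to_count (L := L) (r := k) hb κ (fun N => Tm q (k - 1) N) (Times q (k - 1)) (fun N _ h => h)
          refine le_trans ?_ (q4.trans h5)
          calc δ n / b * (b : ℝ) ^ (L + 1) / (((L + 1 : ℕ) : ℝ) * q) = (δ n / b * (b : ℝ) ^ (L + 1) / ((L + 1 : ℕ) : ℝ)) / q := by
                rw [div_div]
            _ ≤ (δ n * ((b : ℝ) * (1 : ℕ)) ^ L / L) / q := div_le_div_of_nonneg_right hsc hq0.le
            _ = _ := by rw [div_div]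
      · unfold RichS at hq₀
        rw [mem_filter] at hq₀
        exact_mod_cast h2.trans hq₀.2.2.1
  rw [eventually_atTop] at hmain ⊢
  obtain ⟨L₀, hL₀⟩ := hmain
  refine ⟨L₀ + 1, fun N hN => ?_⟩
  obtain ⟨L, rfl⟩ : ∃ L, N = L + 1 := ⟨N - 1, by omega⟩
  exact hL₀ L (by omega)

end Pool.Agent.Results.MP_e8d2ce_nt.PrimesOrThinFactors
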