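import Pool.Agent.Q236.PD.Final

/-!
# Primes among the shifts of the palindromes, for almost all shifts

Definitions used (in `Pool.Agent.Q236.PD`):
* `MSet b k R Z`: the integers `v < b ^ k` whose base-`b` digits at the places `i` and `k - 1 - i` form a pair
  in `R i`, for all `i < k / 2`, and whose middle digit (place `k / 2`) is in `Z` if `k` is odd;
* `MAdm b R Z`: the sets `R i` of pairs of base-`b` digits and the set `Z` of base-`b` digits are not empty,
  and, for `i ≥ 1`, `R i` has two elements which differ in both coordinates;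
* `palR b i`: the set of the pairs `(d, d)`, `d < b`, with `d ≥ 1` if `i = 0`;
* `model z n`: the product of `(1 - 1 / p)⁻¹` over the primes `p ≤ z` if no prime `p ≤ z` divides `n`, otherwise `0`;
* `roots κ h p`: the number of the `x` modulo `p` for which `p` divides one of the numbers `κ_i x + h_i`;
* `ser V κ h P z`: the proportion of the `v ∈ V` for which no prime `p ≤ P` divides one of the numbers
  `κ_i v + h_i`, times the product of `(1 - 1 / p) ^ (-r)` over the primes `p ≤ P`, times the product of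
  `(1 - roots κ h p / p) / (1 - 1 / p) ^ r` over the primes `P < p ≤ z`.
-/

set_option autoImplicit false

namespace Pool.Agent.Results.MP_e8d2ce_nt.ShiftsOfPalindromes

open Finset
open Pool.Agent.Q236.PD

open Classical in
/-- (1) and (2): the palindromes with `k` digits are one of the sets `V = MSet b k R Z` with admissible `R`, `Z`.
For all these sets, at once, and all `H` with `b ^ k / k ^ A ≤ H ≤ B b ^ k`:
(3) for every weight `a` with values in `[-1, 1]`, all but at most `H ^ r / k ^ A` of the tuples `(h_1, …, h_r)` of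
numbers `≤ H` satisfy `|∑_{v ∈ V} a(v) (∏ Λ(κ_i v + h_i) - ∏ Λ'(κ_i v + h_i))| ≤ #V / k ^ A`, `Λ' = model (k ^ E)`;
(4) for all but at most `H ^ r / k ^ A` of the tuples, the number of the `v ∈ V` for which all the numbers
`κ_i v + h_i` are primes, times `log ^ r (b ^ k)`, differs from `S(h) #V` by at most `ε S(h) #V + #V / k ^ A`. -/
theorem result (b : ℕ) (hb : 2 ≤ b) :
    (∀ k : ℕ, 2 ≤ k → ∀ v : ℕ, v ∈ MSet b k (palR b) (range b) ↔
      b ^ (k - 1) ≤ v ∧ v < b ^ k ∧ ∀ j < k, v / b ^ j % b = v / b ^ (k - 1 - j) % b) ∧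
    MAdm b (palR b) (range b) ∧
    ∀ (r : ℕ) (κ : Fin r → ℕ), (∀ i, 1 ≤ κ i) → ∀ B : ℕ, ∃ P₁ : ℕ, ∀ P : ℕ, P₁ ≤ P → ∀ A : ℕ, ∃ E₀ : ℕ,
      ∀ E : ℕ, E₀ ≤ E → ∀ ε : ℝ, 0 < ε → ∃ k₀ : ℕ, ∀ k : ℕ, k₀ ≤ k → ∀ (R : ℕ → Finset (ℕ × ℕ)) (Z : Finset ℕ),
      MAdm b R Z → ∀ V : Finset ℕ, V = MSet b k R Z → ∀ H : ℕ, b ^ k ≤ H * k ^ A → H ≤ B * b ^ k →
      (∀ a : ℕ → ℝ, (∀ n, |a n| ≤ 1) →
        (((Fintype.piFinset (fun _ : Fin r => Icc 1 H)).filter (fun h => (V.card : ℝ) / (k : ℝ) ^ A <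
          |∑ v ∈ V, a v * (∏ i, ArithmeticFunction.vonMangoldt (κ i * v + h i) -
            ∏ i, model (k ^ E) (κ i * v + h i))|)).card : ℝ) ≤ (H : ℝ) ^ r / (k : ℝ) ^ A) ∧
      (((Fintype.piFinset (fun _ : Fin r => Icc 1 H)).filter (fun h =>
        ε * (ser V κ h P (k ^ E) * V.card) + (V.card : ℝ) / (k : ℝ) ^ A <
        |Real.log ((b ^ k : ℕ) : ℝ) ^ r * ((V.filter (fun v => ∀ i, (κ i * v + h i).Prime)).card : ℝ) -
          ser V κ h P (k ^ E) * V.card|)).card : ℝ) ≤ (H : ℝ) ^ r / (k : ℝ) ^ A := by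
  refine ⟨fun k hk v => pal_mem b k hb hk v, pal_adm b hb, fun r κ hκ B => ?_⟩
  obtain ⟨P1, hP1⟩ := set_count b hb r κ hκ B
  refine ⟨P1, fun P hP A => ?_⟩
  obtain ⟨E1, hE1⟩ := hP1 P hP A
  obtain ⟨E2, hE2⟩ := set_main b hb r κ hκ B A
  refine ⟨E1 + E2, fun E hE ε hε => ?_⟩
  obtain ⟨k1, hk1⟩ := hE1 E (by omega) ε hε
  obtain ⟨k2, hk2⟩ := hE2 E (by omega)
  refine ⟨k1 + k2, fun k hk R Z hA V hV H h1 h2 => ?_⟩
  subst hV
  exact ⟨fun a ha => hk2 k (by omega) R Z hA H h1 h2 a ha, hk1 k (by omega) R Z hA H h1 h2⟩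

end Pool.Agent.Results.MP_e8d2ce_nt.ShiftsOfPalindromes
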